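import Pool.Agent.R183.MirrorCone

/-!
# Positivity of mirror deformed Markov numbers (MP_99184a_co)
-/

namespace Pool.Agent.Results.MP_99184a_co.MirrorPositivity

open Polynomial LaurentPolynomial Pool.Agent.R183.MirrorCone

/-- The symmetrisation `X(q) = x(q) x(1/q)`. -/
noncomputable def symm (x : ℤ[X]) : ℤ[T;T⁻¹] := toLaurent x * invert (toLaurent x)

/-- `e` is the quotient `q^(deg c) * (q^s * A + C) / (mirror image of b)`, where `A`, `C` are the
symmetrisations of `a`, `c`; `Polynomial.reverse` is the mirror image `q^(deg b) * b(1/q)`. -/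
def IsQuot (s : ℤ) (a b c e : ℤ[X]) : Prop :=
  toLaurent (e * b.reverse) = T (c.natDegree : ℤ) * (T s * symm a + symm c)

/-- `Node a b c s`: the triple `(a, b, c)` is a node of the mirror Markov tree, produced from its
parent by a mutation of sign `s`. -/
inductive Node : ℤ[X] → ℤ[X] → ℤ[X] → ℤ → Prop
  | root : Node 1 (1 + X) (1 + 2 * X + 2 * X ^ 2) 1
  | left {a b c e : ℤ[X]} {s : ℤ} : Node a b c s → IsQuot s a b c e → Node a c e s
  | right {a b c f : ℤ[X]} {s : ℤ} : Node a b c s → IsQuot (-s) b a c f → Node b c f (-s)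

/-- `m` is a mirror deformed Markov number: an entry of one of the triples `(1,1,1)`, `(1,1,1+q)`
of the initial chain or of a node of the tree below `(1, 1+q, 1+2q+2q^2)`. -/
def IsMirrorMarkov (m : ℤ[X]) : Prop :=
  m = 1 ∨ m = 1 + X ∨ ∃ a b c s, Node a b c s ∧ (m = a ∨ m = b ∨ m = c)

theorem toLaurent_reflect (N : ℕ) (p : ℤ[X]) (h : p.natDegree ≤ N) :
    toLaurent (reflect N p) = T (N : ℤ) * invert (toLaurent p) := by
  have key : ∀ n ≤ N, ∀ r : ℤ, toLaurent (reflect N (Polynomial.C r * X ^ n))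
      = T (N : ℤ) * invert (toLaurent (Polynomial.C r * X ^ n)) := by
    intro n hn r
    rw [reflect_C_mul_X_pow, revAt_le hn]
    simp only [map_mul, toLaurent_C, map_pow, toLaurent_X, invert_C, invert_T]
    rw [T_pow, T_pow]
    have : T (N : ℤ) * (LaurentPolynomial.C r * T ((n : ℤ) * -1))
        = LaurentPolynomial.C r * (T (N : ℤ) * T ((n : ℤ) * -1)) := by ring
    rw [this, ← T_add]
    congr 2
    push_cast [hn]
    ring
  conv_lhs => rw [p.as_sum_range_C_mul_X_pow' (Nat.lt_succ_of_le h)]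
  conv_rhs => rw [p.as_sum_range_C_mul_X_pow' (Nat.lt_succ_of_le h)]
  have hr : ∀ (s : Finset ℕ) (g : ℕ → ℤ[X]),
      reflect N (∑ i ∈ s, g i) = ∑ i ∈ s, reflect N (g i) := by
    intro s g
    induction s using Finset.induction_on with
    | empty => simp
    | insert a s ha ih => rw [Finset.sum_insert ha, Finset.sum_insert ha, reflect_add, ih]
  rw [hr, map_sum, map_sum, map_sum, Finset.mul_sum]
  refine Finset.sum_congr rfl fun i hi => key i ?_ _
  exact Nat.lt_succ_iff.1 (Finset.mem_range.1 hi)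

/-- The full invariant of the tree; `na`, `nb` are the degrees of `a`, `b`. -/
structure Inv (na nb : ℕ) (s : ℤ) (a b c K L M : ℤ[X]) : Prop where
  pos : Pos (na + 1) (nb + 1) K L M
  da : a.natDegree ≤ na
  db : b.natDegree ≤ nb
  dc : c.natDegree ≤ na + nb + 1
  pa : ∀ n ≤ na, a - X ^ n ∈ Cn
  pb : ∀ n ≤ nb, b - X ^ n ∈ Cn
  pc : ∀ n ≤ na + nb + 1, c - X ^ n ∈ Cn
  cb : ∀ i ≤ na + 1, c - X ^ i * b ∈ Cn
  ca : ∀ i ≤ nb + 1, c - X ^ i * a ∈ Cn
  i1 : T ((nb : ℤ) + 1) * invert (toLaurent L) * toLaurent a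
      - T s * (T ((na : ℤ) + 1) * invert (toLaurent K) * toLaurent b)
      = (1 - T s) * toLaurent c
  i4 : T ((na : ℤ) + 1) * T ((nb : ℤ) + 1) * invert (toLaurent M) * toLaurent a
      - toLaurent K * toLaurent c
      = (T s - 1) * T ((na : ℤ) + 1) * toLaurent b
  i5 : toLaurent M * toLaurent b - toLaurent L * toLaurent c
      = (T (-s) - 1) * T ((nb : ℤ) + 1) * toLaurent a
  i2 : toLaurent c * (T (-((na : ℤ) + 1)) * toLaurent K * invert (toLaurent b)
      - invert (toLaurent c))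
      = T s * symm a + symm b

theorem T_inv (n : ℤ) : (T n : ℤ[T;T⁻¹]) * T (-n) = 1 := by
  rw [← T_add]; simp

theorem invinv (p : ℤ[T;T⁻¹]) : invert (invert p) = p :=
  LaurentPolynomial.involutive_invert p

theorem Inv.swap {na nb : ℕ} {s : ℤ} {a b c K L M : ℤ[X]} (h : Inv na nb s a b c K L M) :
    Inv nb na (-s) b a c L K (reflect (na + 1 + (nb + 1)) M) := by
  have hu := T_inv s
  have hta := T_inv ((na : ℤ) + 1)
  have htb := T_inv ((nb : ℤ) + 1)
  have hM := toLaurent_reflect (na + 1 + (nb + 1)) M h.pos.dM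
  have hN : (T ((na + 1 + (nb + 1) : ℕ) : ℤ) : ℤ[T;T⁻¹]) = T ((na : ℤ) + 1) * T ((nb : ℤ) + 1) := by
    rw [← T_add]; congr 1
  rw [hN] at hM
  have hM' : invert (toLaurent (reflect (na + 1 + (nb + 1)) M))
      = T (-((na : ℤ) + 1)) * T (-((nb : ℤ) + 1)) * toLaurent M := by
    rw [hM, map_mul, map_mul, invert_T, invert_T, invinv]
  have i1 := h.i1
  have i4 := h.i4
  have i5 := h.i5
  have i2 := h.i2
  have i1' := congrArg invert i1
  simp only [map_sub, map_mul, invert_T, map_one, invinv] at i1'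
  refine ⟨h.pos.swap, h.db, h.da, ?_, h.pb, h.pa, ?_, h.ca, h.cb, ?_, ?_, ?_, ?_⟩
  · rw [add_comm nb na]; exact h.dc
  · rw [add_comm nb na]; exact h.pc
  · linear_combination (-T (-s)) * i1
      + (toLaurent c - T ((na : ℤ) + 1) * invert (toLaurent K) * toLaurent b) * hu
  · rw [hM']
    linear_combination i5 + toLaurent M * toLaurent b * T ((nb : ℤ) + 1) * T (-((nb : ℤ) + 1)) * hta
      + toLaurent M * toLaurent b * htb
  · rw [hM, neg_neg]
    linear_combination i4
  · simp only [symm] at i2 ⊢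
    linear_combination T (-s) * i2 + toLaurent c * i1' + toLaurent a * invert (toLaurent a) * hu

theorem Inv.left {na nb : ℕ} {s : ℤ} {a b c K L M : ℤ[X]} (h : Inv na nb s a b c K L M) :
    Inv na (na + nb + 1) s a c (K * c - X ^ (na + 1) * b) (reflect (na + 1) K) M
      (K * M - X ^ (na + 1) * L) := by
  have hu := T_inv s
  have hta := T_inv ((na : ℤ) + 1)
  have htb := T_inv ((nb : ℤ) + 1)
  have hK := toLaurent_reflect (na + 1) K h.pos.dK
  have hK' : invert (toLaurent (reflect (na + 1) K)) = T (-((na : ℤ) + 1)) * toLaurent K := by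
    rw [hK, map_mul, invert_T, invinv]
    push_cast
    rfl
  push_cast at hK
  have hX : (toLaurent (X ^ (na + 1) : ℤ[X]) : ℤ[T;T⁻¹]) = T ((na : ℤ) + 1) := by
    rw [toLaurent_X_pow]; push_cast; rfl
  have hnb : (T (((na + nb + 1 : ℕ) : ℤ) + 1) : ℤ[T;T⁻¹])
      = T ((na : ℤ) + 1) * T ((nb : ℤ) + 1) := by
    rw [← T_add]; congr 1; push_cast; ring
  have he : toLaurent (K * c - X ^ (na + 1) * b) = toLaurent K * toLaurent c
      - T ((na : ℤ) + 1) * toLaurent b := by
    rw [map_sub, map_mul, map_mul, hX]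
  have hm : toLaurent (K * M - X ^ (na + 1) * L) = toLaurent K * toLaurent M
      - T ((na : ℤ) + 1) * toLaurent L := by
    rw [map_sub, map_mul, map_mul, hX]
  have he' : invert (toLaurent (K * c - X ^ (na + 1) * b))
      = invert (toLaurent K) * invert (toLaurent c)
      - T (-((na : ℤ) + 1)) * invert (toLaurent b) := by
    rw [he, map_sub, map_mul, map_mul, invert_T]
  have hm' : invert (toLaurent (K * M - X ^ (na + 1) * L))
      = invert (toLaurent K) * invert (toLaurent M)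
      - T (-((na : ℤ) + 1)) * invert (toLaurent L) := by
    rw [hm, map_sub, map_mul, map_mul, invert_T]
  have i1 := h.i1
  have i4 := h.i4
  have i5 := h.i5
  have i2 := h.i2
  have hKS : K - S (na + 1) ∈ Cn := by
    obtain ⟨k, _, hk⟩ := h.pos.pK
    exact add_Xp hk
  have hcC : c ∈ Cn := by
    have : c = (c - X ^ 0) + X ^ 0 := by ring
    rw [this]
    exact Cn.add_mem (h.pc 0 (Nat.zero_le _)) (Xp_mem 0)
  have hec : ∀ i ≤ na + 1, K * c - X ^ (na + 1) * b - X ^ i * c ∈ Cn :=
    step_i (Nat.le_add_left _ _) hKS hcC h.cb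
  have hpos : Pos (na + 1) (na + nb + 1 + 1) (reflect (na + 1) K) M
      (K * M - X ^ (na + 1) * L) := by
    have := h.pos.left
    have e : na + 1 + (nb + 1) = na + nb + 1 + 1 := by ring
    rwa [e] at this
  refine ⟨hpos, h.da, h.dc, ?_, h.pa, h.pc, ?_, hec, ?_, ?_, ?_, ?_, ?_⟩
  · refine (natDegree_sub_le _ _).trans (max_le ?_ ?_)
    · refine natDegree_mul_le.trans ?_
      have := h.pos.dK
      have := h.dc
      omega
    · refine natDegree_mul_le.trans ?_
      have : ((X : ℤ[X]) ^ (na + 1)).natDegree ≤ na + 1 := by simp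
      have := h.db
      omega
  · intro n hn
    obtain ⟨i, j, hi, hj, rfl⟩ : ∃ i j, i ≤ na + 1 ∧ j ≤ na + nb + 1 ∧ n = i + j := by
      by_cases hh : n ≤ na + nb + 1
      · exact ⟨0, n, Nat.zero_le _, hh, by ring⟩
      · exact ⟨n - (na + nb + 1), na + nb + 1, by omega, le_rfl, by omega⟩
    have e : K * c - X ^ (na + 1) * b - X ^ (i + j)
        = (K * c - X ^ (na + 1) * b - X ^ i * c) + X ^ i * (c - X ^ j) := by ring
    rw [e]
    exact Cn.add_mem (hec i hi) (Cn.mul_mem (Xp_mem _) (h.pc j hj))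
  · intro n hn
    obtain ⟨i, j, hi, hj, rfl⟩ : ∃ i j, i ≤ na + 1 ∧ j ≤ nb + 1 ∧ n = i + j := by
      by_cases hh : n ≤ nb + 1
      · exact ⟨0, n, Nat.zero_le _, hh, by ring⟩
      · exact ⟨n - (nb + 1), nb + 1, by omega, le_rfl, by omega⟩
    have e : K * c - X ^ (na + 1) * b - X ^ (i + j) * a
        = (K * c - X ^ (na + 1) * b - X ^ i * c) + X ^ i * (c - X ^ j * a) := by ring
    rw [e]
    exact Cn.add_mem (hec i hi) (Cn.mul_mem (Xp_mem _) (h.ca j hj))
  · rw [hnb, hK', he]
    linear_combination i4 - T s * toLaurent K * toLaurent c * hta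
  · rw [hnb, hm', hK, he]
    linear_combination T ((na : ℤ) + 1) * invert (toLaurent K) * i4
      - T ((na : ℤ) + 1) * i1
      - T ((na : ℤ) + 1) * T ((nb : ℤ) + 1) * invert (toLaurent L) * toLaurent a * hta
  · rw [hnb, hm, he]
    linear_combination T ((na : ℤ) + 1) * i5
  · rw [he', he, hK]
    simp only [symm] at i2 ⊢
    linear_combination i2 + ((toLaurent K * toLaurent c - T ((na : ℤ) + 1) * toLaurent b)
      * invert (toLaurent K) * invert (toLaurent c) - toLaurent b * invert (toLaurent b)) * hta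

theorem natDegree_eq {n : ℕ} {a : ℤ[X]} (ha : a.natDegree ≤ n) (hp : ∀ k ≤ n, a - X ^ k ∈ Cn) :
    a.natDegree = n := by
  refine le_antisymm ha (le_natDegree_of_ne_zero ?_)
  have := coeff_nonneg (hp n le_rfl) n
  rw [coeff_sub, coeff_X_pow, if_pos rfl] at this
  omega

theorem coeff_pos {n : ℕ} {a : ℤ[X]} (hp : ∀ k ≤ n, a - X ^ k ∈ Cn) (k : ℕ) (hk : k ≤ n) :
    0 < a.coeff k := by
  have := coeff_nonneg (hp k hk) k
  rw [coeff_sub, coeff_X_pow, if_pos rfl] at this
  omega

theorem Inv.quot {na nb : ℕ} {s : ℤ} {a b c K L M : ℤ[X]} (h : Inv na nb s a b c K L M) :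
    IsQuot s a b c (K * c - X ^ (na + 1) * b) := by
  have hdb := natDegree_eq h.db h.pb
  have hdc := natDegree_eq h.dc h.pc
  have hta := T_inv ((na : ℤ) + 1)
  have hX : (toLaurent (X ^ (na + 1) : ℤ[X]) : ℤ[T;T⁻¹]) = T ((na : ℤ) + 1) := by
    rw [toLaurent_X_pow]; push_cast; rfl
  have i2 := h.i2
  have e : (T (c.natDegree : ℤ) : ℤ[T;T⁻¹]) = T ((na : ℤ) + 1) * T (b.natDegree : ℤ) := by
    rw [← T_add, hdb, hdc]; congr 1; push_cast; ring
  rw [IsQuot, e, map_mul, map_sub, map_mul, map_mul, hX, toLaurent_reverse]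
  simp only [symm] at i2 ⊢
  linear_combination T ((na : ℤ) + 1) * T (b.natDegree : ℤ) * i2
    - T (b.natDegree : ℤ) * toLaurent c * toLaurent K * invert (toLaurent b) * hta

theorem isQuot_unique {s : ℤ} {a b c e e' : ℤ[X]} (hb : b ≠ 0) (h : IsQuot s a b c e)
    (h' : IsQuot s a b c e') : e' = e := by
  have h1 : toLaurent (e' * b.reverse) = toLaurent (e * b.reverse) := by
    rw [IsQuot] at h h'
    rw [h, h']
  have h2 := toLaurent_injective h1
  exact mul_right_cancel₀ (by simpa using hb) h2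

theorem mem4 {p : ℤ[X]} (a b c d : ℕ)
    (h : p = (a : ℤ[X]) + (b : ℤ[X]) * X + (c : ℤ[X]) * X ^ 2 + (d : ℤ[X]) * X ^ 3) : p ∈ Cn := by
  rw [h]
  exact Cn.add_mem (Cn.add_mem (Cn.add_mem (natCast_mem _ _)
    (Cn.mul_mem (natCast_mem _ _) X_mem)) (Cn.mul_mem (natCast_mem _ _) (Xp_mem _)))
    (Cn.mul_mem (natCast_mem _ _) (Xp_mem _))

theorem root_pos : Pos 1 2 (2 + X) (3 + 2 * X + X ^ 2) (3 + 6 * X + 4 * X ^ 2 + 2 * X ^ 3) := by
  have r3 : reflect 3 (3 + 6 * X + 4 * X ^ 2 + 2 * X ^ 3 : ℤ[X])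
      = 2 + 4 * X + 6 * X ^ 2 + 3 * X ^ 3 := by
    have : (3 + 6 * X + 4 * X ^ 2 + 2 * X ^ 3 : ℤ[X])
        = Polynomial.C 3 * X ^ 0 + Polynomial.C 6 * X ^ 1 + Polynomial.C 4 * X ^ 2
          + Polynomial.C 2 * X ^ 3 := by
      simp
    rw [this]
    simp only [reflect_add, reflect_C_mul_X_pow]
    rw [revAt_le (by norm_num), revAt_le (by norm_num), revAt_le (by norm_num),
      revAt_le (by norm_num)]
    simp
    ring
  have s1 : S 1 = 1 + X := by simp [S, Finset.sum_range_succ]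
  have s2 : S 2 = 1 + X + X ^ 2 := by simp [S, Finset.sum_range_succ]
  have s3 : S 3 = 1 + X + X ^ 2 + X ^ 3 := by simp [S, Finset.sum_range_succ]
  refine ⟨by norm_num, by norm_num, by compute_degree, by compute_degree, ?_, ⟨0, by norm_num, ?_⟩,
    ⟨0, by norm_num, ?_⟩, ⟨0, by norm_num, ?_⟩, ?_, ⟨1, by norm_num, ?_⟩, ?_, ⟨1, by norm_num, ?_⟩⟩
  · show (3 + 6 * X + 4 * X ^ 2 + 2 * X ^ 3 : ℤ[X]).natDegree ≤ 3
    compute_degree
  · rw [s1]; exact mem4 0 0 0 0 (by push_cast; ring)
  · rw [s2]; exact mem4 1 1 0 0 (by push_cast; ring)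
  · rw [show 1 + 2 = 3 from rfl, s3]; exact mem4 1 5 3 1 (by push_cast; ring)
  · intro i hi
    interval_cases i
    · exact mem4 0 4 3 2 (by push_cast; ring)
    · exact mem4 3 3 2 1 (by push_cast; ring)
  · rw [show 1 + 2 = 3 from rfl, s3]; exact mem4 2 2 1 0 (by push_cast; ring)
  · rw [show 1 + 2 = 3 from rfl, r3]
    intro i hi
    interval_cases i
    · exact mem4 0 3 6 3 (by push_cast; ring)
    · exact mem4 2 2 5 3 (by push_cast; ring)
    · exact mem4 2 4 4 2 (by push_cast; ring)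
  · rw [show 1 + 2 = 3 from rfl, r3, s3]; exact mem4 1 1 4 2 (by push_cast; ring)

theorem Inv.root : Inv 0 1 1 1 (1 + X) (1 + 2 * X + 2 * X ^ 2) (2 + X) (3 + 2 * X + X ^ 2)
    (3 + 6 * X + 4 * X ^ 2 + 2 * X ^ 3) := by
  have h := T_inv 1
  have e1 : (T (((0 : ℕ) : ℤ) + 1) : ℤ[T;T⁻¹]) = T 1 := by norm_num
  have e2 : (T (((1 : ℕ) : ℤ) + 1) : ℤ[T;T⁻¹]) = T 1 ^ 2 := by rw [T_pow]; norm_num
  have e3 : (T (-(((0 : ℕ) : ℤ) + 1)) : ℤ[T;T⁻¹]) = T (-1) := by norm_num
  refine ⟨root_pos, by simp, by compute_degree, by compute_degree, ?_, ?_, ?_, ?_, ?_,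
    ?_, ?_, ?_, ?_⟩
  · intro n hn
    interval_cases n
    exact mem4 0 0 0 0 (by push_cast; ring)
  · intro n hn
    interval_cases n
    · exact mem4 0 1 0 0 (by push_cast; ring)
    · exact mem4 1 0 0 0 (by push_cast; ring)
  · intro n hn
    interval_cases n
    · exact mem4 0 2 2 0 (by push_cast; ring)
    · exact mem4 1 1 2 0 (by push_cast; ring)
    · exact mem4 1 2 1 0 (by push_cast; ring)
  · intro n hn
    interval_cases n
    · exact mem4 0 1 2 0 (by push_cast; ring)
    · exact mem4 1 1 1 0 (by push_cast; ring)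
  · intro n hn
    interval_cases n
    · exact mem4 0 2 2 0 (by push_cast; ring)
    · exact mem4 1 1 2 0 (by push_cast; ring)
    · exact mem4 1 2 1 0 (by push_cast; ring)
  · rw [e1, e2]
    simp only [map_add, map_mul, map_one, map_ofNat, map_pow, toLaurent_X, invert_T]
    linear_combination (2 * T 1 + T 1 * T (-1) + 1 - T 1 * (1 + T 1)) * h
  · rw [e1, e2]
    simp only [map_add, map_mul, map_one, map_ofNat, map_pow, toLaurent_X, invert_T]
    linear_combination (6 * T 1 ^ 2 + 4 * T 1 * (T 1 * T (-1) + 1)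
      + 2 * (T 1 ^ 2 * T (-1) ^ 2 + T 1 * T (-1) + 1)) * h
  · rw [e2]
    simp only [map_add, map_mul, map_one, map_ofNat, map_pow, toLaurent_X, invert_T]
    linear_combination (-T 1) * h
  · rw [e3]
    simp only [symm, map_add, map_mul, map_one, map_ofNat, map_pow, toLaurent_X, invert_T]
    linear_combination ((1 + 2 * T 1 + 2 * T 1 ^ 2) * (1 + T (-1)) + 2 + 2 * T 1 - 1) * h

/-- Every node of the tree satisfies the invariant. -/
theorem Node.inv {a b c : ℤ[X]} {s : ℤ} (h : Node a b c s) :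
    ∃ na nb K L M, Inv na nb s a b c K L M := by
  induction h with
  | root => exact ⟨_, _, _, _, _, Inv.root⟩
  | @left a b c e s _ he ih =>
    obtain ⟨na, nb, K, L, M, h⟩ := ih
    have hb : b ≠ 0 := by
      rintro rfl
      have := coeff_pos h.pb 0 (Nat.zero_le _)
      simp at this
    have := isQuot_unique hb h.quot he
    subst this
    exact ⟨_, _, _, _, _, h.left⟩
  | @right a b c f s _ hf ih =>
    obtain ⟨na, nb, K, L, M, h⟩ := ih
    have ha : a ≠ 0 := by
      rintro rfl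
      have := coeff_pos h.pa 0 (Nat.zero_le _)
      simp at this
    have := isQuot_unique ha h.swap.quot hf
    subst this
    exact ⟨_, _, _, _, _, h.swap.left⟩

/-- **Positivity of mirror deformed Markov numbers.** Every node of the mirror Markov tree has
exactly one left child and exactly one right child (so the tree is well defined), and all
coefficients of all mirror deformed Markov numbers are positive. -/
theorem result :
    (IsQuot 1 1 1 1 (1 + X) ∧ IsQuot 1 1 1 (1 + X) (1 + 2 * X + 2 * X ^ 2)) ∧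
    (∀ a b c s, Node a b c s → (∃! e, IsQuot s a b c e) ∧ (∃! f, IsQuot (-s) b a c f)) ∧
    (∀ m, IsMirrorMarkov m → ∀ j ≤ m.natDegree, 0 < m.coeff j) := by
  have h := T_inv 1
  have hr : reverse (1 : ℤ[X]) = 1 := by
    have := reverse_C (1 : ℤ)
    simpa using this
  refine ⟨⟨?_, ?_⟩, ?_, ?_⟩
  · simp [IsQuot, symm, hr]
    ring
  · have hd : (1 + X : ℤ[X]).natDegree = 1 := by compute_degree!
    rw [IsQuot, hd, hr]
    simp only [symm, map_add, map_mul, map_one, map_ofNat, map_pow, toLaurent_X, invert_T]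
    simp only [Nat.cast_one]
    linear_combination (-(1 + T 1)) * h
  · intro a b c s h
    obtain ⟨na, nb, K, L, M, h⟩ := h.inv
    have hb : b ≠ 0 := by
      rintro rfl
      have := coeff_pos h.pb 0 (Nat.zero_le _)
      simp at this
    have ha : a ≠ 0 := by
      rintro rfl
      have := coeff_pos h.pa 0 (Nat.zero_le _)
      simp at this
    exact ⟨⟨_, h.quot, fun e' he' => isQuot_unique hb h.quot he'⟩,
      ⟨_, h.swap.quot, fun e' he' => isQuot_unique ha h.swap.quot he'⟩⟩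
  · rintro m (rfl | rfl | ⟨a, b, c, s, h, hm⟩) j hj
    · simp at hj
      subst hj
      simp
    · have hd : (1 + X : ℤ[X]).natDegree = 1 := by compute_degree!
      rw [hd] at hj
      interval_cases j <;> simp [coeff_one]
    · obtain ⟨na, nb, K, L, M, h⟩ := h.inv
      rcases hm with rfl | rfl | rfl
      · exact coeff_pos h.pa j (hj.trans h.da)
      · exact coeff_pos h.pb j (hj.trans h.db)
      · exact coeff_pos h.pc j (hj.trans h.dc)

end Pool.Agent.Results.MP_99184a_co.MirrorPositivity
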